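import Mathlib

set_option autoImplicit false
set_option linter.unusedSectionVars false

open MeasureTheory Complex Filter Topology Metric
open scoped ENNReal Real ComplexConjugate

namespace Pool.Agent.Results.MP_c4e2dd_an.GDFails

/-- Normalised arc length on the unit circle, viewed as a measure on `ℂ`: the image of
`dt / (2π)` on `(0, 2π]` under `t ↦ e^{it}`. -/
noncomputable def mT : Measure ℂ :=
  (ENNReal.ofReal (2 * π))⁻¹ •
    Measure.map (fun t : ℝ => Complex.exp (t * I)) (volume.restrict (Set.Ioc 0 (2 * π)))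

lemma meas_expI : Measurable (fun t : ℝ => Complex.exp (t * I)) := by fun_prop

instance : IsProbabilityMeasure mT := by
  constructor
  rw [mT, Measure.smul_apply, Measure.map_apply meas_expI MeasurableSet.univ]
  simp only [Set.preimage_univ, Measure.restrict_apply MeasurableSet.univ, Set.univ_inter,
    Real.volume_Ioc, sub_zero, smul_eq_mul]
  have h : 0 < 2 * π := by positivity
  exact ENNReal.inv_mul_cancel (by simpa using h) ENNReal.ofReal_ne_top

lemma ae_mT_of {p : ℂ → Prop} (hp : MeasurableSet {ζ | p ζ})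
    (h : ∀ᵐ t : ℝ ∂(volume.restrict (Set.Ioc 0 (2 * π))), p (Complex.exp (t * I))) :
    ∀ᵐ ζ ∂mT, p ζ := by
  have : ∀ᵐ ζ ∂(Measure.map (fun t : ℝ => Complex.exp (t * I))
      (volume.restrict (Set.Ioc 0 (2 * π)))), p ζ :=
    (ae_map_iff meas_expI.aemeasurable hp).2 h
  exact Measure.ae_smul_measure this _

lemma ae_norm : ∀ᵐ ζ ∂mT, ‖ζ‖ = 1 := by
  apply ae_mT_of
  · exact (isClosed_eq continuous_norm continuous_const).measurableSet
  · exact Eventually.of_forall fun t => Complex.norm_exp_ofReal_mul_I t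

lemma ae_ne_one : ∀ᵐ ζ ∂mT, ζ ≠ 1 := by
  apply ae_mT_of
  · exact (isOpen_ne).measurableSet
  · have h1 : ∀ᵐ t : ℝ ∂(volume.restrict (Set.Ioc 0 (2 * π))), t ≠ 2 * π :=
      ae_restrict_of_ae (Measure.ae_ne volume (2 * π))
    filter_upwards [h1, ae_restrict_mem measurableSet_Ioc] with t ht htm h
    rw [Complex.exp_eq_one_iff] at h
    obtain ⟨n, hn⟩ := h
    have h2 : t = n * (2 * π) := by
      have := congrArg Complex.im hn
      simpa using this
    have h3 : 0 < 2 * π := by positivity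
    have h4 : (0 : ℝ) < n := by
      have := htm.1
      rw [h2] at this
      exact (pos_iff_pos_of_mul_pos this).2 h3
    have h5 : (n : ℝ) < 1 := by
      have h6 : t < 2 * π := lt_of_le_of_ne htm.2 ht
      rw [h2] at h6
      nlinarith
    have h7 : (0 : ℤ) < n := by exact_mod_cast h4
    have h8 : n < (1 : ℤ) := by exact_mod_cast h5
    omega

lemma mT_restrict : mT.restrict (sphere (0 : ℂ) 1) = mT := by
  apply Measure.restrict_eq_self_of_ae_mem
  filter_upwards [ae_norm] with ζ h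
  simpa using h

lemma aesm_of_continuousOn {E : Type*} [TopologicalSpace E] [TopologicalSpace.PseudoMetrizableSpace E]
    {f : ℂ → E} (hf : ContinuousOn f (sphere 0 1)) : AEStronglyMeasurable f mT := by
  rw [← mT_restrict]
  exact hf.aestronglyMeasurable_of_isCompact (isCompact_sphere 0 1)
    (isCompact_sphere (0:ℂ) 1).measurableSet

lemma integral_mT {E : Type*} [NormedAddCommGroup E] [NormedSpace ℝ E] {f : ℂ → E}
    (hf : AEStronglyMeasurable f mT) :
    ∫ ζ, f ζ ∂mT = Real.circleAverage f 0 1 := by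
  have h3 : 0 < 2 * π := by positivity
  have hf' : AEStronglyMeasurable f (Measure.map (fun t : ℝ => Complex.exp (t * I))
      (volume.restrict (Set.Ioc 0 (2 * π)))) := by
    have := hf.smul_measure (ENNReal.ofReal (2 * π))
    rw [mT, smul_smul, ENNReal.mul_inv_cancel (by simpa using h3) ENNReal.ofReal_ne_top,
      one_smul] at this
    exact this
  rw [mT, integral_smul_measure, integral_map meas_expI.aemeasurable hf', Real.circleAverage_def,
    intervalIntegral.integral_of_le h3.le]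
  congr 1
  · rw [ENNReal.toReal_inv, ENNReal.toReal_ofReal h3.le]
  · simp [circleMap]

/-! ### The building blocks -/

/-- `v z = (1 + z) / (1 - z)`. -/
noncomputable def v (z : ℂ) : ℂ := (1 + z) / (1 - z)

/-- `q a z = 1 / (v z + a)`, written as a Moebius map. -/
noncomputable def q (a z : ℂ) : ℂ := (1 - z) / ((1 + z) + a * (1 - z))

lemma one_sub_ne {z : ℂ} (h : z ≠ 1) : 1 - z ≠ 0 := sub_ne_zero.2 (Ne.symm h)

lemma v_re {z : ℂ} : (v z).re = (1 - ‖z‖ ^ 2) / ‖1 - z‖ ^ 2 := by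
  rw [v, div_re, ← add_div, ← normSq_eq_norm_sq, ← normSq_eq_norm_sq]
  congr 1
  simp [normSq_apply]
  ring

lemma v_re_nonneg {z : ℂ} (h : ‖z‖ ≤ 1) : 0 ≤ (v z).re := by
  rw [v_re]
  have : ‖z‖ ^ 2 ≤ 1 := by nlinarith [norm_nonneg z]
  exact div_nonneg (by linarith) (by positivity)

lemma v_re_zero {z : ℂ} (h : ‖z‖ = 1) : (v z).re = 0 := by
  rw [v_re, h]; simp

lemma q_eq {a z : ℂ} (h : z ≠ 1) : q a z = (v z + a)⁻¹ := by
  have h1 := one_sub_ne h
  rw [q, v, div_add' _ _ _ h1, inv_div]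

lemma va_re_pos {a z : ℂ} (ha : 0 < a.re) (h : ‖z‖ ≤ 1) : 0 < (v z + a).re := by
  rw [add_re]; linarith [v_re_nonneg h]

lemma va_ne {a z : ℂ} (ha : 0 < a.re) (h : ‖z‖ ≤ 1) : v z + a ≠ 0 := by
  intro h0
  have := va_re_pos ha h
  rw [h0] at this
  simp at this

lemma den_ne {a z : ℂ} (ha : 0 < a.re) (h : ‖z‖ ≤ 1) : (1 + z) + a * (1 - z) ≠ 0 := by
  by_cases h1 : z = 1
  · subst h1
    norm_num
  · have h2 := one_sub_ne h1
    have h3 := va_ne ha h
    have h4 : (1 + z) + a * (1 - z) = (v z + a) * (1 - z) := by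
      rw [v]; field_simp
    rw [h4]
    exact mul_ne_zero h3 h2

lemma q_re_nonneg {a z : ℂ} (ha : 0 < a.re) (h : ‖z‖ ≤ 1) : 0 ≤ (q a z).re := by
  by_cases h1 : z = 1
  · subst h1
    simp [q]
  · rw [q_eq h1, inv_re]
    exact div_nonneg (va_re_pos ha h).le (normSq_nonneg _)

lemma q_norm_le_re {a z : ℂ} (ha : 0 < a.re) (h : ‖z‖ ≤ 1) : ‖q a z‖ ≤ 1 / a.re := by
  by_cases h1 : z = 1
  · subst h1
    simp [q]
    exact ha.le
  · rw [q_eq h1, norm_inv, ← one_div]
    apply one_div_le_one_div_of_le ha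
    calc a.re ≤ (v z + a).re := by rw [add_re]; linarith [v_re_nonneg h]
      _ ≤ ‖v z + a‖ := re_le_norm _

lemma q_norm_le_one {a z : ℂ} (h1 : z ≠ 1) (h : 1 ≤ |(v z + a).im|) : ‖q a z‖ ≤ 1 := by
  rw [q_eq h1, norm_inv]
  apply inv_le_one_of_one_le₀
  exact h.trans (abs_im_le_norm _)

lemma q_diff {a z : ℂ} (ha : 0 < a.re) (h : ‖z‖ ≤ 1) : DifferentiableAt ℂ (q a) z := by
  unfold q
  have := den_ne ha h
  fun_prop (disch := exact this)

lemma q_cont {a z : ℂ} (ha : 0 < a.re) (h : ‖z‖ ≤ 1) : ContinuousAt (q a) z :=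
  (q_diff ha h).continuousAt

lemma q_diffContOnCl {a : ℂ} (ha : 0 < a.re) : DiffContOnCl ℂ (q a) (ball 0 1) := by
  constructor
  · intro z hz
    exact (q_diff ha (by simpa using (mem_ball_zero_iff.1 hz).le)).differentiableWithinAt
  · intro z hz
    rw [closure_ball _ one_ne_zero] at hz
    exact (q_cont ha (by simpa using hz)).continuousWithinAt

/-! ### The series -/

/-- The parameter `b j - j i`. -/
noncomputable def al (b : ℕ → ℝ) (j : ℕ) : ℂ := (b j : ℂ) - (j : ℂ) * I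

lemma al_re (b : ℕ → ℝ) (j : ℕ) : (al b j).re = b j := by simp [al]

lemma al_im (b : ℕ → ℝ) (j : ℕ) : (al b j).im = -j := by simp [al]

/-- `S w b z = ∑ w_j / (v z + b_j - j i)`. -/
noncomputable def S (w b : ℕ → ℝ) (z : ℂ) : ℂ := ∑' j, (w j : ℂ) * q (al b j) z

/-- The finite sums of the first terms. -/
noncomputable def SN (w b : ℕ → ℝ) (N : ℕ) (z : ℂ) : ℂ :=
  ∑ j ∈ Finset.range N, (w j : ℂ) * q (al b j) z

section series

variable {w b : ℕ → ℝ} (hw : ∀ j, 0 ≤ w j) (hb : ∀ j, 0 < b j) (hs : Summable w)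

include hw hb hs

lemma bound_exists (R : ℝ) : ∃ B : ℕ → ℝ, Summable B ∧ ∀ z : ℂ, ‖z‖ ≤ 1 → z ≠ 1 → |(v z).im| ≤ R →
    ∀ j, ‖(w j : ℂ) * q (al b j) z‖ ≤ B j := by
  obtain ⟨N, hN⟩ := exists_nat_gt (R + 1)
  refine ⟨fun j => w j + (if j < N then w j / b j else 0), ?_, ?_⟩
  · apply hs.add
    apply summable_of_ne_finset_zero (s := Finset.range N)
    intro j hj
    simp only [Finset.mem_range] at hj
    simp [hj]
  · intro z hz hz1 hR j
    rw [norm_mul, Complex.norm_real, Real.norm_eq_abs, abs_of_nonneg (hw j)]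
    have h1 : 0 < (al b j).re := by rw [al_re]; exact hb j
    by_cases hj : j < N
    · simp only [hj, if_true]
      have := q_norm_le_re h1 hz
      rw [al_re] at this
      have h2 : w j * ‖q (al b j) z‖ ≤ w j * (1 / b j) := mul_le_mul_of_nonneg_left this (hw j)
      have h3 : w j * (1 / b j) = w j / b j := by ring
      linarith [hw j]
    · simp only [hj, if_false, add_zero]
      have h2 : ‖q (al b j) z‖ ≤ 1 := by
        apply q_norm_le_one hz1
        rw [add_im, al_im]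
        have h3 : (N : ℝ) ≤ j := by exact_mod_cast not_lt.1 hj
        have h4 := abs_le.1 hR
        rw [abs_of_nonpos (by linarith [h4.2])]
        linarith [h4.2]
      nlinarith [hw j]

lemma summable_term {z : ℂ} (hz : ‖z‖ ≤ 1) (hz1 : z ≠ 1) :
    Summable (fun j => (w j : ℂ) * q (al b j) z) := by
  obtain ⟨B, hB, h⟩ := bound_exists hw hb hs (|(v z).im|)
  exact Summable.of_norm_bounded hB (h z hz hz1 le_rfl)

lemma S_re {z : ℂ} (hz : ‖z‖ ≤ 1) (hz1 : z ≠ 1) :
    (S w b z).re = ∑' j, w j * (q (al b j) z).re := by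
  rw [S, Complex.re_tsum (summable_term hw hb hs hz hz1)]
  simp

lemma summable_re {z : ℂ} (hz : ‖z‖ ≤ 1) (hz1 : z ≠ 1) :
    Summable (fun j => w j * (q (al b j) z).re) := by
  have := (Complex.hasSum_re (summable_term hw hb hs hz hz1).hasSum).summable
  simpa using this

lemma term_re_nonneg {z : ℂ} (hz : ‖z‖ ≤ 1) (j : ℕ) : 0 ≤ w j * (q (al b j) z).re :=
  mul_nonneg (hw j) (q_re_nonneg (by rw [al_re]; exact hb j) hz)

lemma S_re_nonneg {z : ℂ} (hz : ‖z‖ ≤ 1) (hz1 : z ≠ 1) : 0 ≤ (S w b z).re := by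
  rw [S_re hw hb hs hz hz1]
  exact tsum_nonneg (term_re_nonneg hw hb hs hz)

lemma S_re_ge_term {z : ℂ} (hz : ‖z‖ ≤ 1) (hz1 : z ≠ 1) (j : ℕ) :
    w j * (q (al b j) z).re ≤ (S w b z).re := by
  rw [S_re hw hb hs hz hz1]
  exact (summable_re hw hb hs hz hz1).le_tsum j (fun i _ => term_re_nonneg hw hb hs hz i)

lemma S_diff {z : ℂ} (hz : z ∈ ball (0 : ℂ) 1) : DifferentiableAt ℂ (S w b) z := by
  rw [mem_ball_zero_iff] at hz
  obtain ⟨ρ, h1, h2⟩ := exists_between hz
  have h0 : 0 < 1 - ρ := by linarith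
  obtain ⟨B, hB, h⟩ := bound_exists hw hb hs ((1 + ρ) / (1 - ρ))
  have h3 : DifferentiableOn ℂ (S w b) (ball 0 ρ) := by
    apply differentiableOn_tsum_of_summable_norm hB _ isOpen_ball
    · intro j z hz
      rw [mem_ball_zero_iff] at hz
      have hz1 : z ≠ 1 := by
        rintro rfl
        simp at hz
        linarith
      apply h z (by linarith) hz1
      calc |(v z).im| ≤ ‖v z‖ := abs_im_le_norm _
        _ = ‖1 + z‖ / ‖1 - z‖ := by rw [v, norm_div]
        _ ≤ (1 + ρ) / (1 - ρ) := by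
          apply div_le_div₀ (by linarith [norm_nonneg z]) _ h0 _
          · calc ‖1 + z‖ ≤ ‖(1:ℂ)‖ + ‖z‖ := norm_add_le _ _
              _ ≤ 1 + ρ := by rw [norm_one]; linarith
          · calc 1 - ρ ≤ ‖(1:ℂ)‖ - ‖z‖ := by rw [norm_one]; linarith
              _ ≤ ‖1 - z‖ := norm_sub_norm_le _ _
    · intro j z hz
      rw [mem_ball_zero_iff] at hz
      have h1 : 0 < (al b j).re := by rw [al_re]; exact hb j
      exact ((differentiableAt_const _).mul (q_diff h1 (by linarith))).differentiableWithinAt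
  exact (h3 z (by rw [mem_ball_zero_iff]; exact h1)).differentiableAt
    (isOpen_ball.mem_nhds (by rw [mem_ball_zero_iff]; exact h1))

lemma S_radial {ζ : ℂ} (hζ : ‖ζ‖ = 1) (hζ1 : ζ ≠ 1) :
    Tendsto (fun r : ℝ => S w b (r * ζ)) (𝓝[<] 1) (𝓝 (S w b ζ)) := by
  obtain ⟨B, hB, h⟩ := bound_exists hw hb hs (|(v ζ).im| + 1)
  have hcr : Tendsto (fun r : ℝ => (r : ℂ) * ζ) (𝓝[<] 1) (𝓝 ζ) := by
    have : Tendsto (fun r : ℝ => (r : ℂ) * ζ) (𝓝 1) (𝓝 (((1:ℝ) : ℂ) * ζ)) :=
      (by fun_prop : Continuous (fun r : ℝ => (r : ℂ) * ζ)).tendsto 1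
    simp only [ofReal_one, one_mul] at this
    exact this.mono_left nhdsWithin_le_nhds
  have hv : ContinuousAt v ζ := by
    unfold v
    have := one_sub_ne hζ1
    fun_prop (disch := exact this)
  have hpos : ∀ᶠ r : ℝ in 𝓝[<] 1, 0 < r := by
    have : ∀ᶠ r : ℝ in 𝓝 1, 0 < r := lt_mem_nhds one_pos
    exact this.filter_mono nhdsWithin_le_nhds
  have hlt : ∀ᶠ r : ℝ in 𝓝[<] 1, r < 1 := eventually_mem_nhdsWithin
  have him : ∀ᶠ r : ℝ in 𝓝[<] 1, |(v (r * ζ)).im| ≤ |(v ζ).im| + 1 := by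
    have h1 : Tendsto (fun r : ℝ => |(v (r * ζ)).im|) (𝓝[<] 1) (𝓝 |(v ζ).im|) :=
      ((continuous_abs.comp continuous_im).tendsto _).comp (hv.tendsto.comp hcr)
    exact (h1.eventually (gt_mem_nhds (lt_add_one _))).mono fun r hr => hr.le
  apply tendsto_tsum_of_dominated_convergence hB
  · intro j
    have h1 : 0 < (al b j).re := by rw [al_re]; exact hb j
    exact tendsto_const_nhds.mul ((q_cont h1 hζ.le).tendsto.comp hcr)
  · filter_upwards [hpos, hlt, him] with r h1 h2 h3 j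
    have h4 : ‖(r : ℂ) * ζ‖ = r := by
      rw [norm_mul, hζ, Complex.norm_real, Real.norm_eq_abs, abs_of_pos h1, mul_one]
    apply h _ (by rw [h4]; exact h2.le) _ h3
    intro h5
    rw [h5, norm_one] at h4
    linarith

end series

/-! ### The Herglotz formula -/

lemma circ_conj {f : ℂ → ℂ} : conj (Real.circleAverage f 0 1) =
    Real.circleAverage (fun ζ => conj (f ζ)) 0 1 := by
  rw [Real.circleAverage_def, Real.circleAverage_def]
  simp only [Complex.real_smul, map_mul, Complex.conj_ofReal]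
  congr 1
  rw [intervalIntegral.integral_of_le (by positivity), intervalIntegral.integral_of_le (by positivity),
    ← integral_conj]

lemma norm_conj_mul_lt {z ζ : ℂ} (hz : ‖z‖ < 1) (h : ‖ζ‖ ≤ 1) : ‖conj z * ζ‖ < 1 := by
  rw [norm_mul, Complex.norm_conj]
  nlinarith [norm_nonneg z, norm_nonneg ζ]

lemma one_sub_conj_ne {z ζ : ℂ} (hz : ‖z‖ < 1) (h : ‖ζ‖ ≤ 1) : 1 - conj z * ζ ≠ 0 := by
  intro h0
  have := norm_conj_mul_lt hz h
  rw [← sub_eq_zero.1 h0, norm_one] at this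
  exact lt_irrefl _ this

lemma circInt_of {E : Type*} [NormedAddCommGroup E] {f : ℂ → E} (hf : ContinuousOn f (sphere 0 1)) :
    CircleIntegrable f 0 1 := by
  apply ContinuousOn.circleIntegrable zero_le_one hf

lemma herglotz_single {f : ℂ → ℂ} (hf : DiffContOnCl ℂ f (ball 0 1)) {z : ℂ} (hz : ‖z‖ < 1) :
    Real.circleAverage (fun ζ => (ζ + z) / (ζ - z) * ((f ζ).re : ℂ)) 0 1 = f z - (f 0).im * I := by
  have habs : |(1:ℝ)| = 1 := abs_one
  have hfc : ContinuousOn f (closedBall 0 1) := hf.continuousOn_ball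
  have hfs : ContinuousOn f (sphere 0 1) := hfc.mono sphere_subset_closedBall
  have hsub : ∀ ζ ∈ sphere (0:ℂ) 1, ζ - z ≠ 0 := by
    intro ζ hζ h0
    rw [mem_sphere_zero_iff_norm] at hζ
    rw [sub_eq_zero.1 h0] at hζ
    linarith
  have hk : ContinuousOn (fun ζ : ℂ => ζ / (ζ - z)) (sphere 0 1) := by
    apply ContinuousOn.div continuousOn_id (by fun_prop) hsub
  have h1 : Real.circleAverage (fun ζ => (ζ / (ζ - z)) * f ζ) 0 1 = f z := by
    have := DiffContOnCl.circleAverage_smul_div (f := f) (c := 0) (R := 1) (w := z)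
      (by rwa [habs]) (by rw [habs]; simpa using hz)
    simpa using this
  have h2 : Real.circleAverage (fun ζ => (ζ / (ζ - z)) * conj (f ζ)) 0 1 = conj (f 0) := by
    have h3 : Real.circleAverage (fun ζ => f ζ / (1 - conj z * ζ)) 0 1 = f 0 := by
      have h4 : DiffContOnCl ℂ (fun ζ => f ζ / (1 - conj z * ζ)) (ball 0 |(1:ℝ)|) := by
        rw [habs]
        have h5 : DiffContOnCl ℂ (fun ζ => (1 - conj z * ζ)⁻¹) (ball (0:ℂ) 1) := by
          constructor
          · intro ζ hζ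
            have := one_sub_conj_ne hz (by simpa using (mem_ball_zero_iff.1 hζ).le)
            apply DifferentiableAt.differentiableWithinAt
            fun_prop (disch := exact this)
          · intro ζ hζ
            rw [closure_ball _ one_ne_zero] at hζ
            have := one_sub_conj_ne hz (by simpa using hζ)
            apply ContinuousAt.continuousWithinAt
            fun_prop (disch := exact this)
        have := hf.smul h5
        simpa only [div_eq_mul_inv, smul_eq_mul] using this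
      have := h4.circleAverage
      simpa using this
    rw [← h3, circ_conj]
    apply Real.circleAverage_congr_sphere
    intro ζ hζ
    rw [habs] at hζ
    have hζ0 : ζ ≠ 0 := by
      rintro rfl
      simp at hζ
    have hζ1 : ‖ζ‖ = 1 := by simpa using hζ
    have hc : conj ζ = ζ⁻¹ := by
      rw [Complex.inv_def, normSq_eq_norm_sq, hζ1]
      simp
    have hne := hsub ζ hζ
    simp only [map_div₀, map_sub, map_one, map_mul, Complex.conj_conj, hc]
    have : 1 - z * ζ⁻¹ = (ζ - z) / ζ := by field_simp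
    rw [this, div_div_eq_mul_div]
    ring
  have h6 : Real.circleAverage (fun ζ => ((f ζ).re : ℂ)) 0 1 = ((f 0).re : ℂ) := by
    have h7 : Real.circleAverage f 0 1 = f 0 := by
      have := DiffContOnCl.circleAverage (f := f) (c := 0) (R := 1) (by rwa [habs])
      simpa using this
    have h8 : Real.circleAverage (fun ζ => conj (f ζ)) 0 1 = conj (f 0) := by
      rw [← circ_conj, h7]
    have h9 : (fun ζ => ((f ζ).re : ℂ)) = fun ζ => (1 / 2 : ℝ) • (f ζ + conj (f ζ)) := by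
      funext ζ
      rw [Complex.add_conj]
      simp
    rw [h9, Real.circleAverage_fun_smul, Real.circleAverage_fun_add (f₁ := f)
      (f₂ := fun ζ => conj (f ζ)) (circInt_of hfs)
      (circInt_of (continuous_conj.comp_continuousOn hfs)), h7, h8, Complex.add_conj]
    simp
  have h10 : Set.EqOn (fun ζ => (ζ + z) / (ζ - z) * ((f ζ).re : ℂ))
      (fun ζ => ((ζ / (ζ - z)) * f ζ + (ζ / (ζ - z)) * conj (f ζ)) - ((f ζ).re : ℂ))
      (sphere 0 |(1:ℝ)|) := by
    intro ζ hζ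
    rw [habs] at hζ
    have hne := hsub ζ hζ
    simp only
    rw [← mul_add, Complex.add_conj]
    field_simp
    push_cast
    ring
  rw [Real.circleAverage_congr_sphere h10, Real.circleAverage_fun_sub, Real.circleAverage_fun_add,
    h1, h2, h6]
  · apply Complex.ext <;> simp
    ring
  · exact circInt_of (hk.mul hfs)
  · exact circInt_of (hk.mul (continuous_conj.comp_continuousOn hfs))
  · exact circInt_of ((hk.mul hfs).add (hk.mul (continuous_conj.comp_continuousOn hfs)))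
  · exact circInt_of (continuous_ofReal.comp_continuousOn (continuous_re.comp_continuousOn hfs))

section series2

variable {w b : ℕ → ℝ} (hw : ∀ j, 0 ≤ w j) (hb : ∀ j, 0 < b j) (hs : Summable w)

include hw hb hs

lemma q_contOn (j : ℕ) : ContinuousOn (q (al b j)) (sphere 0 1) := by
  intro z hz
  have h1 : 0 < (al b j).re := by rw [al_re]; exact hb j
  exact (q_cont h1 (by rw [mem_sphere_zero_iff_norm] at hz; exact hz.le)).continuousWithinAt

lemma S_aesm : AEStronglyMeasurable (S w b) mT := by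
  apply aestronglyMeasurable_of_tendsto_ae (u := atTop) (f := fun N => SN w b N)
  · intro N
    apply aesm_of_continuousOn
    unfold SN
    apply continuousOn_finsetSum
    intro j _
    exact continuousOn_const.mul (q_contOn hw hb hs j)
  · filter_upwards [ae_norm, ae_ne_one] with ζ h1 h2
    exact (summable_term hw hb hs h1.le h2).hasSum.tendsto_sum_nat

lemma q_zero_norm (j : ℕ) : ‖q (al b j) 0‖ ≤ 1 := by
  rw [q_eq (by norm_num : (0:ℂ) ≠ 1), norm_inv]
  apply inv_le_one_of_one_le₀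
  have h1 : (v 0 + al b j).re = 1 + b j := by
    rw [add_re, al_re, v_re]; simp
  calc (1:ℝ) ≤ (v 0 + al b j).re := by rw [h1]; linarith [hb j]
    _ ≤ _ := re_le_norm _

lemma int_re_q (j : ℕ) : ∫ ζ, (q (al b j) ζ).re ∂mT = (q (al b j) 0).re := by
  have h1 : 0 < (al b j).re := by rw [al_re]; exact hb j
  have hc := q_contOn hw hb hs j
  have h2 := herglotz_single (q_diffContOnCl h1) (z := 0) (by simp)
  have h3 : Real.circleAverage (fun ζ => (((q (al b j) ζ).re : ℝ) : ℂ)) 0 1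
      = (((q (al b j) 0).re : ℝ) : ℂ) := by
    have h4 : q (al b j) 0 - (q (al b j) 0).im * I = (((q (al b j) 0).re : ℝ) : ℂ) := by
      apply Complex.ext <;> simp
    rw [← h4, ← h2]
    apply Real.circleAverage_congr_sphere
    intro ζ hζ
    have hζ0 : ζ ≠ 0 := by
      rintro rfl
      simp at hζ
    simp [hζ0]
  have hc2 : ContinuousOn (fun ζ => (((q (al b j) ζ).re : ℝ) : ℂ)) (sphere 0 1) :=
    continuous_ofReal.comp_continuousOn (continuous_re.comp_continuousOn hc)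
  rw [← integral_mT (aesm_of_continuousOn hc2), integral_complex_ofReal] at h3
  exact_mod_cast h3

lemma int_q_integrable (j : ℕ) : Integrable (fun ζ => (q (al b j) ζ).re) mT := by
  have h1 : 0 < (al b j).re := by rw [al_re]; exact hb j
  apply Integrable.of_bound (C := 1 / (al b j).re)
  · exact aesm_of_continuousOn (continuous_re.comp_continuousOn (q_contOn hw hb hs j))
  · filter_upwards [ae_norm] with ζ h2
    exact (abs_re_le_norm _).trans (q_norm_le_re h1 h2.le)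

lemma S_re_integrable : Integrable (fun ζ => (S w b ζ).re) mT := by
  refine ⟨continuous_re.comp_aestronglyMeasurable (S_aesm hw hb hs), ?_⟩
  have h1 : ∫⁻ ζ, ‖(S w b ζ).re‖ₑ ∂mT = ∫⁻ ζ, ∑' j, ENNReal.ofReal (w j * (q (al b j) ζ).re) ∂mT := by
    apply lintegral_congr_ae
    filter_upwards [ae_norm, ae_ne_one] with ζ h1 h2
    rw [Real.enorm_of_nonneg (S_re_nonneg hw hb hs h1.le h2), S_re hw hb hs h1.le h2,
      ENNReal.ofReal_tsum_of_nonneg (term_re_nonneg hw hb hs h1.le) (summable_re hw hb hs h1.le h2)]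
  have h2 : ∀ j, ∫⁻ ζ, ENNReal.ofReal (w j * (q (al b j) ζ).re) ∂mT
      = ENNReal.ofReal (w j * (q (al b j) 0).re) := by
    intro j
    rw [← int_re_q hw hb hs j, ← integral_const_mul, ofReal_integral_eq_lintegral_ofReal]
    · exact (int_q_integrable hw hb hs j).const_mul _
    · filter_upwards [ae_norm] with ζ h1
      exact term_re_nonneg hw hb hs h1.le j
  rw [HasFiniteIntegral, h1, lintegral_tsum]
  · simp_rw [h2]
    rw [← ENNReal.ofReal_tsum_of_nonneg (term_re_nonneg hw hb hs (by simp))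
      (summable_re hw hb hs (by simp) (by norm_num))]
    exact ENNReal.ofReal_lt_top
  · intro j
    exact ((int_q_integrable hw hb hs j).const_mul (w j)).aemeasurable.ennreal_ofReal

lemma kern_contOn {z : ℂ} (hz : ‖z‖ < 1) :
    ContinuousOn (fun ζ : ℂ => (ζ + z) / (ζ - z)) (sphere 0 1) := by
  apply ContinuousOn.div (by fun_prop) (by fun_prop)
  intro ζ hζ h0
  rw [mem_sphere_zero_iff_norm] at hζ
  rw [sub_eq_zero.1 h0] at hζ
  linarith

lemma kern_bound {z ζ : ℂ} (hz : ‖z‖ < 1) (hζ : ‖ζ‖ = 1) :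
    ‖(ζ + z) / (ζ - z)‖ ≤ 2 / (1 - ‖z‖) := by
  rw [norm_div]
  apply div_le_div₀ (by norm_num)
  · calc ‖ζ + z‖ ≤ ‖ζ‖ + ‖z‖ := norm_add_le _ _
      _ ≤ 2 := by linarith
  · linarith
  · calc 1 - ‖z‖ = ‖ζ‖ - ‖z‖ := by rw [hζ]
      _ ≤ ‖ζ - z‖ := norm_sub_norm_le _ _

lemma herglotz_S {z : ℂ} (hz : ‖z‖ < 1) :
    ∫ ζ, (ζ + z) / (ζ - z) * ((S w b ζ).re : ℂ) ∂mT = S w b z - (S w b 0).im * I := by
  have hz1 : z ≠ 1 := by
    rintro rfl
    simp at hz
  let F : ℕ → ℂ → ℂ := fun j ζ => (ζ + z) / (ζ - z) * (((w j * (q (al b j) ζ).re : ℝ)) : ℂ)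
  have hFc : ∀ j, ContinuousOn (F j) (sphere 0 1) := fun j =>
    (kern_contOn hw hb hs hz).mul (continuous_ofReal.comp_continuousOn
      (continuousOn_const.mul (continuous_re.comp_continuousOn (q_contOn hw hb hs j))))
  have hFn : ∀ j, ∀ᵐ ζ ∂mT, ‖F j ζ‖ ≤ 2 / (1 - ‖z‖) * (w j * (q (al b j) ζ).re) := by
    intro j
    filter_upwards [ae_norm] with ζ h1
    simp only [F]
    rw [norm_mul, Complex.norm_real, Real.norm_eq_abs, abs_of_nonneg (term_re_nonneg hw hb hs h1.le j)]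
    exact mul_le_mul_of_nonneg_right (kern_bound hw hb hs hz h1) (term_re_nonneg hw hb hs h1.le j)
  have hI : ∀ j, Integrable (fun ζ => 2 / (1 - ‖z‖) * (w j * (q (al b j) ζ).re)) mT := fun j =>
    ((int_q_integrable hw hb hs j).const_mul _).const_mul _
  have hFi : ∀ j, Integrable (F j) mT := by
    intro j
    exact (hI j).mono' (aesm_of_continuousOn (hFc j)) (hFn j)
  have hsum : Summable (fun j => ∫ ζ, ‖F j ζ‖ ∂mT) := by
    apply Summable.of_nonneg_of_le (g := fun j => ∫ ζ, ‖F j ζ‖ ∂mT)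
      (f := fun j => 2 / (1 - ‖z‖) * w j)
    · intro j
      exact integral_nonneg fun ζ => norm_nonneg _
    · intro j
      calc ∫ ζ, ‖F j ζ‖ ∂mT ≤ ∫ ζ, 2 / (1 - ‖z‖) * (w j * (q (al b j) ζ).re) ∂mT :=
            integral_mono_ae (hFi j).norm (hI j) (hFn j)
        _ = 2 / (1 - ‖z‖) * (w j * (q (al b j) 0).re) := by
            rw [integral_const_mul, integral_const_mul, int_re_q hw hb hs j]
        _ ≤ 2 / (1 - ‖z‖) * w j := by
            have h1 : 0 ≤ 2 / (1 - ‖z‖) := div_nonneg (by norm_num) (by linarith)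
            apply mul_le_mul_of_nonneg_left _ h1
            have h2 : (q (al b j) 0).re ≤ 1 := (re_le_norm _).trans (q_zero_norm hw hb hs j)
            nlinarith [hw j]
    · exact hs.mul_left _
  have key := hasSum_integral_of_summable_integral_norm hFi hsum
  have hterm : ∀ j, ∫ ζ, F j ζ ∂mT = (w j : ℂ) * q (al b j) z - ((w j * (q (al b j) 0).im : ℝ) : ℂ) * I := by
    intro j
    have h1 : 0 < (al b j).re := by rw [al_re]; exact hb j
    have h2 : (F j) = fun ζ => (w j : ℂ) * ((ζ + z) / (ζ - z) * ((q (al b j) ζ).re : ℂ)) := by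
      funext ζ
      simp only [F]
      push_cast
      ring
    have hc2 : ContinuousOn (fun ζ : ℂ => (ζ + z) / (ζ - z) * ((q (al b j) ζ).re : ℂ)) (sphere 0 1) :=
      (kern_contOn hw hb hs hz).mul (continuous_ofReal.comp_continuousOn
        (continuous_re.comp_continuousOn (q_contOn hw hb hs j)))
    rw [h2, integral_const_mul, integral_mT (aesm_of_continuousOn hc2),
      herglotz_single (q_diffContOnCl h1) hz]
    push_cast
    ring
  have hts : ∫ ζ, ∑' j, F j ζ ∂mT = ∫ ζ, (ζ + z) / (ζ - z) * ((S w b ζ).re : ℂ) ∂mT := by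
    apply integral_congr_ae
    filter_upwards [ae_norm, ae_ne_one] with ζ h1 h2
    simp only [F]
    rw [tsum_mul_left, S_re hw hb hs h1.le h2, Complex.ofReal_tsum]
  rw [hts] at key
  simp_rw [hterm] at key
  have h3 : HasSum (fun j => (w j : ℂ) * q (al b j) z) (S w b z) :=
    (summable_term hw hb hs hz.le hz1).hasSum
  have h4 : HasSum (fun j => (w j : ℂ) * q (al b j) 0) (S w b 0) :=
    (summable_term hw hb hs (by simp) (by norm_num)).hasSum
  have h5 : HasSum (fun j => ((w j * (q (al b j) 0).im : ℝ) : ℂ) * I) ((S w b 0).im * I) := by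
    have h6 := Complex.hasSum_im h4
    have h7 : HasSum (fun j => w j * (q (al b j) 0).im) (S w b 0).im := by
      simpa using h6
    exact ((Complex.hasSum_ofReal).2 h7).mul_right I
  exact key.unique (h3.sub h5)

end series2

/-! ### Bounded analytic functions and their boundary values -/

lemma poisson_formula {f : ℂ → ℂ} (hf : DiffContOnCl ℂ f (ball 0 1)) {z : ℂ} (hz : z ∈ ball (0:ℂ) 1) :
    ∫ ζ, (((ζ + z) / (ζ - z)).re : ℂ) * f ζ ∂mT = f z := by
  have hz' : ‖z‖ < 1 := by simpa using hz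
  have hk : ContinuousOn (fun ζ : ℂ => (ζ + z) / (ζ - z)) (sphere 0 1) := by
    apply ContinuousOn.div (by fun_prop) (by fun_prop)
    intro ζ hζ h0
    rw [mem_sphere_zero_iff_norm] at hζ
    rw [sub_eq_zero.1 h0] at hζ
    linarith
  have hfs : ContinuousOn f (sphere 0 1) := hf.continuousOn_ball.mono sphere_subset_closedBall
  have hc : ContinuousOn (fun ζ : ℂ => (((ζ + z) / (ζ - z)).re : ℂ) * f ζ) (sphere 0 1) :=
    (continuous_ofReal.comp_continuousOn (continuous_re.comp_continuousOn hk)).mul hfs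
  rw [integral_mT (aesm_of_continuousOn hc)]
  have h := hf.circleAverage_re_herglotzRieszKernel_smul hz
  rw [← h]
  apply Real.circleAverage_congr_sphere
  intro ζ _
  simp [herglotzRieszKernel]

lemma max_principle {u : ℂ → ℂ} (hd : DifferentiableOn ℂ u (ball 0 1)) {C : ℝ}
    (hC : ∀ z ∈ ball (0:ℂ) 1, ‖u z‖ ≤ C) {g : ℂ → ℂ} {M : ℝ} (hM : ∀ᵐ ζ ∂mT, ‖g ζ‖ ≤ M)
    (hl : ∀ᵐ ζ ∂mT, Tendsto (fun r : ℝ => u (r * ζ)) (𝓝[<] 1) (𝓝 (g ζ))) :
    ∀ z ∈ ball (0:ℂ) 1, ‖u z‖ ≤ M := by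
  intro z hz
  have hz' : ‖z‖ < 1 := by simpa using hz
  let P : ℂ → ℝ := fun ζ => ((ζ + z) / (ζ - z)).re
  have hk : ContinuousOn (fun ζ : ℂ => (ζ + z) / (ζ - z)) (sphere 0 1) := by
    apply ContinuousOn.div (by fun_prop) (by fun_prop)
    intro ζ hζ h0
    rw [mem_sphere_zero_iff_norm] at hζ
    rw [sub_eq_zero.1 h0] at hζ
    linarith
  have hPc : ContinuousOn P (sphere 0 1) := continuous_re.comp_continuousOn hk
  have hP0 : ∀ᵐ ζ ∂mT, 0 ≤ P ζ := by
    filter_upwards [ae_norm] with ζ h1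
    have := le_re_herglotzRieszKernel (c := 0) (z := ζ) (w := z) (R := 1) (by simpa using h1) hz
    simp only [sub_zero] at this
    exact le_trans (div_nonneg (by linarith) (by linarith [norm_nonneg z])) this
  have hPi : Integrable P mT := by
    obtain ⟨B, hB⟩ := (isCompact_sphere (0:ℂ) 1).exists_bound_of_continuousOn hPc
    apply Integrable.of_bound (aesm_of_continuousOn hPc) B
    filter_upwards [ae_norm] with ζ h1
    exact hB ζ (by simpa using h1)
  have hP1 : ∫ ζ, P ζ ∂mT = 1 := by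
    have h := poisson_formula (f := fun _ => 1) diffContOnCl_const hz
    simp only [mul_one] at h
    rw [integral_complex_ofReal] at h
    exact_mod_cast h
  have hpos : ∀ᶠ r : ℝ in 𝓝[<] 1, 0 < r := by
    have : ∀ᶠ r : ℝ in 𝓝 1, 0 < r := lt_mem_nhds one_pos
    exact this.filter_mono nhdsWithin_le_nhds
  have hlt : ∀ᶠ r : ℝ in 𝓝[<] 1, r < 1 := eventually_mem_nhdsWithin
  have hball : ∀ r : ℝ, 0 < r → r < 1 → ∀ ζ : ℂ, ‖ζ‖ ≤ 1 → (r : ℂ) * ζ ∈ ball (0:ℂ) 1 := by
    intro r h0 h1 ζ h2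
    rw [mem_ball_zero_iff, norm_mul, Complex.norm_real, Real.norm_eq_abs, abs_of_pos h0]
    nlinarith [norm_nonneg ζ]
  have hcont : ∀ r : ℝ, 0 < r → r < 1 → ∀ ζ : ℂ, ‖ζ‖ ≤ 1 →
      DifferentiableAt ℂ (fun ζ => u (r * ζ)) ζ := by
    intro r h0 h1 ζ h2
    have h3 : DifferentiableAt ℂ u (r * ζ) :=
      (hd _ (hball r h0 h1 ζ h2)).differentiableAt (isOpen_ball.mem_nhds (hball r h0 h1 ζ h2))
    exact DifferentiableAt.comp ζ h3 (by fun_prop)
  have hdc : ∀ r : ℝ, 0 < r → r < 1 → DiffContOnCl ℂ (fun ζ => u (r * ζ)) (ball 0 1) := by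
    intro r h0 h1
    constructor
    · intro ζ hζ
      exact (hcont r h0 h1 ζ (by simpa using (mem_ball_zero_iff.1 hζ).le)).differentiableWithinAt
    · intro ζ hζ
      rw [closure_ball _ one_ne_zero] at hζ
      exact (hcont r h0 h1 ζ (by simpa using hζ)).continuousAt.continuousWithinAt
  have hform : ∀ r : ℝ, 0 < r → r < 1 → ∫ ζ, (P ζ : ℂ) * u (r * ζ) ∂mT = u (r * z) :=
    fun r h0 h1 => poisson_formula (hdc r h0 h1) hz
  have hlim1 : Tendsto (fun r : ℝ => ∫ ζ, (P ζ : ℂ) * u (r * ζ) ∂mT) (𝓝[<] 1)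
      (𝓝 (∫ ζ, (P ζ : ℂ) * g ζ ∂mT)) := by
    apply tendsto_integral_filter_of_dominated_convergence (bound := fun ζ => P ζ * C)
    · filter_upwards [hpos, hlt] with r h0 h1
      apply aesm_of_continuousOn
      exact (continuous_ofReal.comp_continuousOn hPc).mul
        ((hdc r h0 h1).continuousOn_ball.mono sphere_subset_closedBall)
    · filter_upwards [hpos, hlt] with r h0 h1
      filter_upwards [ae_norm, hP0] with ζ h2 h3
      rw [norm_mul, Complex.norm_real, Real.norm_eq_abs, abs_of_nonneg h3]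
      exact mul_le_mul_of_nonneg_left (hC _ (hball r h0 h1 ζ h2.le)) h3
    · exact hPi.mul_const C
    · filter_upwards [hl] with ζ h
      exact tendsto_const_nhds.mul h
  have hlim2 : Tendsto (fun r : ℝ => u (r * z)) (𝓝[<] 1) (𝓝 (u z)) := by
    have h1 : Tendsto (fun r : ℝ => (r : ℂ) * z) (𝓝[<] 1) (𝓝 z) := by
      have : Tendsto (fun r : ℝ => (r : ℂ) * z) (𝓝 1) (𝓝 (((1:ℝ) : ℂ) * z)) :=
        (by fun_prop : Continuous (fun r : ℝ => (r : ℂ) * z)).tendsto 1
      simp only [ofReal_one, one_mul] at this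
      exact this.mono_left nhdsWithin_le_nhds
    have h2 : ContinuousAt u z :=
      ((hd z hz).differentiableAt (isOpen_ball.mem_nhds hz)).continuousAt
    exact h2.tendsto.comp h1
  have heq : ∫ ζ, (P ζ : ℂ) * g ζ ∂mT = u z := by
    apply tendsto_nhds_unique hlim1
    apply hlim2.congr'
    filter_upwards [hpos, hlt] with r h0 h1
    exact (hform r h0 h1).symm
  rw [← heq]
  calc ‖∫ ζ, (P ζ : ℂ) * g ζ ∂mT‖ ≤ ∫ ζ, P ζ * M ∂mT := by
        apply norm_integral_le_of_norm_le (hPi.mul_const M)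
        filter_upwards [hP0, hM] with ζ h1 h2
        rw [norm_mul, Complex.norm_real, Real.norm_eq_abs, abs_of_nonneg h1]
        exact mul_le_mul_of_nonneg_left h2 h1
    _ = M := by rw [integral_mul_const, hP1, one_mul]

/-! ### The concrete sequences and the test points -/

/-- Heights of the test points. -/
noncomputable def sS (j : ℕ) : ℝ := (1 / 2) ^ j
/-- Weights and widths for the function `h`. -/
noncomputable def eE (j : ℕ) : ℝ := (1 / 4) ^ j
/-- Widths for the function `θ`. -/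
noncomputable def dD (j : ℕ) : ℝ := (1 / 16) ^ j
/-- Weights for the function `θ`. -/
noncomputable def cC (j : ℕ) : ℝ := (3 / 4) ^ j

lemma sS_pos (j : ℕ) : 0 < sS j := by unfold sS; positivity
lemma eE_pos (j : ℕ) : 0 < eE j := by unfold eE; positivity
lemma dD_pos (j : ℕ) : 0 < dD j := by unfold dD; positivity
lemma cC_pos (j : ℕ) : 0 < cC j := by unfold cC; positivity
lemma eE_sum : Summable eE := summable_geometric_of_lt_one (by norm_num) (by norm_num)
lemma cC_sum : Summable cC := summable_geometric_of_lt_one (by norm_num) (by norm_num)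
lemma ratio_eq (j : ℕ) : eE j / sS j = (1 / 2) ^ j := by
  unfold eE sS; rw [← div_pow]; norm_num
lemma dD_le_sS (j : ℕ) : dD j ≤ sS j := by
  unfold dD sS
  exact pow_le_pow_left₀ (by norm_num) (by norm_num) j
lemma cde_eq (j : ℕ) : cC j * dD j / (eE j) ^ 2 = (3 / 4) ^ j := by
  unfold cC dD eE
  rw [← pow_mul, mul_comm j 2, pow_mul, ← mul_pow, ← div_pow]
  norm_num

/-- The test points in the right half plane. -/
noncomputable def vk (k : ℕ) : ℂ := (sS k : ℂ) + (k : ℂ) * I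

/-- The test points in the disc. -/
noncomputable def zk (k : ℕ) : ℂ := (vk k - 1) / (vk k + 1)

lemma vk_re (k : ℕ) : (vk k).re = sS k := by simp [vk]
lemma vk_im (k : ℕ) : (vk k).im = k := by simp [vk]

lemma vk1_ne (k : ℕ) : vk k + 1 ≠ 0 := by
  intro h
  have := congrArg Complex.re h
  rw [add_re, vk_re] at this
  simp at this
  linarith [sS_pos k]

lemma zk_ne_one (k : ℕ) : zk k ≠ 1 := by
  intro h
  rw [zk, div_eq_one_iff_eq (vk1_ne k)] at h
  have := congrArg Complex.re h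
  simp at this
  linarith

lemma v_zk (k : ℕ) : v (zk k) = vk k := by
  have h1 := vk1_ne k
  have h2 : 1 - zk k = 2 / (vk k + 1) := by rw [zk]; field_simp; ring
  have h3 : 1 + zk k = 2 * vk k / (vk k + 1) := by rw [zk]; field_simp; ring
  rw [v, h2, h3]
  field_simp

lemma zk_norm (k : ℕ) : ‖zk k‖ < 1 := by
  have h := v_re (z := zk k)
  rw [v_zk, vk_re] at h
  have h1 : 0 < ‖1 - zk k‖ ^ 2 := by
    have := one_sub_ne (zk_ne_one k)
    positivity
  have h2 : 0 < 1 - ‖zk k‖ ^ 2 := by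
    have h3 := sS_pos k
    rw [h] at h3
    exact (div_pos_iff_of_pos_right h1).1 h3
  nlinarith [norm_nonneg (zk k)]

lemma zk_mem (k : ℕ) : zk k ∈ ball (0:ℂ) 1 := by simpa using zk_norm k

lemma P_tendsto : Tendsto (fun k => S eE eE (zk k)) atTop (𝓝 0) := by
  have h0 : (0:ℂ) = ∑' j : ℕ, (0:ℂ) := by simp
  rw [h0]
  apply tendsto_tsum_of_dominated_convergence (bound := fun j => eE j + eE j / sS j)
  · apply eE_sum.add
    simp_rw [ratio_eq]
    exact summable_geometric_of_lt_one (by norm_num) (by norm_num)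
  · intro j
    rw [tendsto_zero_iff_norm_tendsto_zero]
    apply squeeze_zero' (g := fun k : ℕ => eE j / ((k : ℝ) + (-(j:ℝ))))
    · exact Eventually.of_forall fun k => norm_nonneg _
    · filter_upwards [eventually_gt_atTop j] with k hk
      have hk' : (0:ℝ) < (k : ℝ) + (-(j:ℝ)) := by
        have : (j:ℝ) < k := by exact_mod_cast hk
        linarith
      rw [norm_mul, Complex.norm_real, Real.norm_eq_abs, abs_of_pos (eE_pos j), div_eq_mul_inv]
      apply mul_le_mul_of_nonneg_left _ (eE_pos j).le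
      rw [q_eq (zk_ne_one k), norm_inv]
      apply inv_anti₀ hk'
      calc (k:ℝ) + (-(j:ℝ)) = (v (zk k) + al eE j).im := by rw [v_zk, add_im, vk_im, al_im]
        _ ≤ |(v (zk k) + al eE j).im| := le_abs_self _
        _ ≤ _ := abs_im_le_norm _
    · apply Tendsto.div_atTop tendsto_const_nhds
      exact tendsto_atTop_add_const_right _ _ tendsto_natCast_atTop_atTop
  · apply Eventually.of_forall
    intro k j
    rw [norm_mul, Complex.norm_real, Real.norm_eq_abs, abs_of_pos (eE_pos j)]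
    have hp : 0 < eE j / sS j := div_pos (eE_pos j) (sS_pos j)
    by_cases hjk : j = k
    · subst hjk
      have h1 : ‖q (al eE j) (zk j)‖ ≤ 1 / sS j := by
        rw [q_eq (zk_ne_one j), norm_inv, ← one_div]
        apply one_div_le_one_div_of_le (sS_pos j)
        calc sS j ≤ (v (zk j) + al eE j).re := by
              rw [v_zk, add_re, vk_re, al_re]; linarith [eE_pos j]
          _ ≤ _ := re_le_norm _
      have h2 : eE j * ‖q (al eE j) (zk j)‖ ≤ eE j * (1 / sS j) :=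
        mul_le_mul_of_nonneg_left h1 (eE_pos j).le
      have h3 : eE j * (1 / sS j) = eE j / sS j := by ring
      linarith [eE_pos j]
    · have h1 : ‖q (al eE j) (zk k)‖ ≤ 1 := by
        apply q_norm_le_one (zk_ne_one k)
        rw [v_zk, add_im, vk_im, al_im]
        have h2 : (1:ℤ) ≤ |(k:ℤ) + (-(j:ℤ))| := by
          apply Int.one_le_abs
          omega
        exact_mod_cast h2
      nlinarith [eE_pos j]

lemma SN_re (w b : ℕ → ℝ) (N : ℕ) (z : ℂ) :
    (SN w b N z).re = ∑ j ∈ Finset.range N, w j * (q (al b j) z).re := by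
  rw [SN, Complex.re_sum]
  simp

lemma Q_large (k : ℕ) : (3 / 2 : ℝ) ^ k / 2 ≤ (SN cC dD (k + 1) (zk k)).re := by
  rw [SN_re]
  have h1 : cC k * (q (al dD k) (zk k)).re ≤
      ∑ j ∈ Finset.range (k + 1), cC j * (q (al dD j) (zk k)).re := by
    apply Finset.single_le_sum (f := fun j => cC j * (q (al dD j) (zk k)).re)
    · intro j _
      exact term_re_nonneg (fun j => (cC_pos j).le) dD_pos cC_sum (zk_norm k).le j
    · simp
  refine le_trans ?_ h1
  have h2 : v (zk k) + al dD k = ((sS k + dD k : ℝ) : ℂ) := by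
    rw [v_zk, vk, al]; push_cast; ring
  rw [q_eq (zk_ne_one k), h2, ← Complex.ofReal_inv, Complex.ofReal_re]
  have h3 : sS k + dD k ≤ 2 * sS k := by linarith [dD_le_sS k]
  have h4 : 0 < sS k + dD k := by linarith [sS_pos k, dD_pos k]
  calc (3 / 2 : ℝ) ^ k / 2 = cC k * (2 * sS k)⁻¹ := by
        unfold cC sS
        rw [mul_inv, ← div_eq_inv_mul, ← inv_pow, mul_div_assoc', ← mul_pow]
        norm_num
    _ ≤ cC k * (sS k + dD k)⁻¹ := by
        apply mul_le_mul_of_nonneg_left _ (cC_pos k).le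
        exact inv_anti₀ h4 h3

/-- Uniform bound for `Re Q` away from the small arcs. -/
noncomputable def BB : ℝ := ∑' j, cC j

lemma q_re_circle {b : ℕ → ℝ} {ζ : ℂ} (h1 : ‖ζ‖ = 1) (h2 : ζ ≠ 1) (j : ℕ) :
    (q (al b j) ζ).re = b j / ((b j) ^ 2 + ((v ζ).im - j) ^ 2) := by
  rw [q_eq h2, inv_re, normSq_apply, add_re, add_im, v_re_zero h1, al_re, al_im]
  congr 1
  · ring
  · ring

lemma P_re_large {ζ : ℂ} (h1 : ‖ζ‖ = 1) (h2 : ζ ≠ 1) {j : ℕ} (hj : |(v ζ).im - j| ≤ eE j) :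
    1 / 2 ≤ (S eE eE ζ).re := by
  refine le_trans ?_ (S_re_ge_term (fun j => (eE_pos j).le) eE_pos eE_sum h1.le h2 j)
  rw [q_re_circle h1 h2]
  have h3 := eE_pos j
  have h4 : ((v ζ).im - j) ^ 2 ≤ (eE j) ^ 2 := by
    rw [← sq_abs]
    exact pow_le_pow_left₀ (abs_nonneg _) hj 2
  rw [mul_div_assoc', le_div_iff₀ (by positivity)]
  nlinarith

lemma Q_re_small {ζ : ℂ} (h1 : ‖ζ‖ = 1) (h2 : ζ ≠ 1) (hj : ∀ j : ℕ, eE j < |(v ζ).im - j|) :
    (S cC dD ζ).re ≤ BB := by
  have hc : ∀ j, 0 ≤ cC j := fun j => (cC_pos j).le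
  rw [S_re hc dD_pos cC_sum h1.le h2, BB]
  apply Summable.tsum_le_tsum _ (summable_re hc dD_pos cC_sum h1.le h2) cC_sum
  intro j
  rw [q_re_circle h1 h2]
  have h3 := eE_pos j
  have h4 : (eE j) ^ 2 ≤ ((v ζ).im - j) ^ 2 := by
    rw [← sq_abs ((v ζ).im - j)]
    exact pow_le_pow_left₀ h3.le (hj j).le 2
  have h5 := dD_pos j
  calc cC j * (dD j / (dD j ^ 2 + ((v ζ).im - j) ^ 2)) ≤ cC j * (dD j / (eE j) ^ 2) := by
        apply mul_le_mul_of_nonneg_left _ (hc j)
        apply div_le_div_of_nonneg_left h5.le (by positivity)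
        nlinarith [sq_nonneg (dD j)]
    _ = cC j := by rw [← mul_div_assoc, cde_eq]; rfl

/-! ### The objects of the question -/

/-- `F` is a bounded analytic function on the open unit disc. -/
def IsBddAnalytic (F : ℂ → ℂ) : Prop :=
  DifferentiableOn ℂ F (ball 0 1) ∧ ∃ C : ℝ, ∀ z ∈ ball (0 : ℂ) 1, ‖F z‖ ≤ C

/-- The class `f` is the boundary function of `F`: radial limits of `F` exist almost everywhere on
the circle and equal `f`. -/
def HasBoundary (F : ℂ → ℂ) (f : Lp ℂ ∞ mT) : Prop :=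
  ∀ᵐ ζ ∂mT, Tendsto (fun r : ℝ => F (r * ζ)) (𝓝[<] 1) (𝓝 (f ζ))

/-- The space `H^∞` of boundary functions of bounded analytic functions. -/
def Hinf : Set (Lp ℂ ∞ mT) := {f | ∃ F : ℂ → ℂ, IsBddAnalytic F ∧ HasBoundary F f}

/-- `θ` is a bounded outer function: a nonzero element of `H^∞`, with `log |θ|` integrable, whose
extension to the disc is given by the Herglotz integral of `log |θ|`. -/
def IsBddOuter (θ : Lp ℂ ∞ mT) : Prop :=
  θ ≠ 0 ∧ Integrable (fun ζ => Real.log ‖θ ζ‖) mT ∧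
    ∃ Θ : ℂ → ℂ, IsBddAnalytic Θ ∧ HasBoundary Θ θ ∧
      ∃ c : ℂ, ‖c‖ = 1 ∧ ∀ z ∈ ball (0 : ℂ) 1,
        Θ z = c * Complex.exp (∫ ζ, (ζ + z) / (ζ - z) * (Real.log ‖θ ζ‖ : ℂ) ∂mT)

/-- The space `H^∞ + θ L^∞`. -/
def HinfPlus (θ : Lp ℂ ∞ mT) : Set (Lp ℂ ∞ mT) :=
  {f | ∃ h ∈ Hinf, ∃ g : Lp ℂ ∞ mT, f =ᵐ[mT] fun ζ => h ζ + θ ζ * g ζ}

/-- The defining property of generalized Douglas algebras. -/
def GDProperty (X : Set (Lp ℂ ∞ mT)) : Prop :=
  ∀ f ∈ X, ‖f‖ < 1 → ∃ u ∈ X, u =ᵐ[mT] fun ζ => 1 / (1 - f ζ)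

lemma Linf_bound (G : Lp ℂ ∞ mT) : ∃ M : ℝ, 0 ≤ M ∧ ∀ᵐ ζ ∂mT, ‖G ζ‖ ≤ M := by
  have h := Lp.memLp G
  have h1 : eLpNormEssSup G mT < ∞ := by
    have := h.2
    rwa [eLpNorm_exponent_top] at this
  refine ⟨(eLpNormEssSup G mT).toReal, ENNReal.toReal_nonneg, ?_⟩
  filter_upwards [enorm_ae_le_eLpNormEssSup G mT] with ζ hζ
  have := ENNReal.toReal_mono h1.ne hζ
  simpa using this

lemma norm_lt_of_bound {f : Lp ℂ ∞ mT} {C : ℝ} (hC : 0 ≤ C) (h : ∀ᵐ ζ ∂mT, ‖f ζ‖ ≤ C) :
    ‖f‖ ≤ C := by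
  rw [Lp.norm_def, eLpNorm_exponent_top]
  apply ENNReal.toReal_le_of_le_ofReal hC
  exact eLpNormEssSup_le_of_ae_bound h

/-- The outer function in the disc and on the circle. -/
noncomputable def Th (z : ℂ) : ℂ := Complex.exp (-S cC dD z)

/-- The auxiliary function. -/
noncomputable def Hh (z : ℂ) : ℂ := Complex.exp (-S eE eE z)

lemma cC0 : ∀ j, 0 ≤ cC j := fun j => (cC_pos j).le
lemma eE0 : ∀ j, 0 ≤ eE j := fun j => (eE_pos j).le

lemma exp_neg_bdd {w b : ℕ → ℝ} (hw : ∀ j, 0 ≤ w j) (hb : ∀ j, 0 < b j) (hs : Summable w) {z : ℂ}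
    (hz : ‖z‖ ≤ 1) (hz1 : z ≠ 1) : ‖Complex.exp (-S w b z)‖ ≤ 1 := by
  rw [Complex.norm_exp, Real.exp_le_one_iff, neg_re]
  linarith [S_re_nonneg hw hb hs hz hz1]

lemma ne_one_of_mem {z : ℂ} (hz : z ∈ ball (0:ℂ) 1) : z ≠ 1 := by
  rintro rfl
  simp at hz

lemma exp_isBdd {w b : ℕ → ℝ} (hw : ∀ j, 0 ≤ w j) (hb : ∀ j, 0 < b j) (hs : Summable w) :
    IsBddAnalytic (fun z => Complex.exp (-S w b z)) := by
  constructor
  · intro z hz
    exact ((S_diff hw hb hs hz).neg.cexp).differentiableWithinAt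
  · refine ⟨1, fun z hz => exp_neg_bdd hw hb hs ?_ (ne_one_of_mem hz)⟩
    exact (mem_ball_zero_iff.1 hz).le

lemma exp_radial {w b : ℕ → ℝ} (hw : ∀ j, 0 ≤ w j) (hb : ∀ j, 0 < b j) (hs : Summable w) {ζ : ℂ}
    (hζ : ‖ζ‖ = 1) (hζ1 : ζ ≠ 1) :
    Tendsto (fun r : ℝ => Complex.exp (-S w b (r * ζ))) (𝓝[<] 1) (𝓝 (Complex.exp (-S w b ζ))) :=
  (Complex.continuous_exp.tendsto _).comp (S_radial hw hb hs hζ hζ1).neg

lemma exp_memLp {w b : ℕ → ℝ} (hw : ∀ j, 0 ≤ w j) (hb : ∀ j, 0 < b j) (hs : Summable w) :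
    MemLp (fun ζ => Complex.exp (-S w b ζ)) ∞ mT := by
  apply memLp_top_of_bound (C := 1)
  · exact Complex.continuous_exp.comp_aestronglyMeasurable (S_aesm hw hb hs).neg
  · filter_upwards [ae_norm, ae_ne_one] with ζ h1 h2
    exact exp_neg_bdd hw hb hs h1.le h2

/-- The outer function as an element of `L^∞`. -/
noncomputable def θL : Lp ℂ ∞ mT := (exp_memLp cC0 dD_pos cC_sum).toLp _

/-- The auxiliary function as an element of `L^∞`. -/
noncomputable def hL : Lp ℂ ∞ mT := (exp_memLp eE0 eE_pos eE_sum).toLp _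

lemma θL_ae : θL =ᵐ[mT] Th := MemLp.coeFn_toLp _
lemma hL_ae : hL =ᵐ[mT] Hh := MemLp.coeFn_toLp _

lemma θL_boundary : HasBoundary Th θL := by
  filter_upwards [ae_norm, ae_ne_one, θL_ae] with ζ h1 h2 h3
  rw [h3]
  exact exp_radial cC0 dD_pos cC_sum h1 h2

lemma hL_boundary : HasBoundary Hh hL := by
  filter_upwards [ae_norm, ae_ne_one, hL_ae] with ζ h1 h2 h3
  rw [h3]
  exact exp_radial eE0 eE_pos eE_sum h1 h2

lemma log_norm_Th (ζ : ℂ) : Real.log ‖Th ζ‖ = -(S cC dD ζ).re := by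
  rw [Th, Complex.norm_exp, Real.log_exp, neg_re]

lemma θL_outer : IsBddOuter θL := by
  refine ⟨?_, ?_, Th, exp_isBdd cC0 dD_pos cC_sum, θL_boundary, Complex.exp (-((S cC dD 0).im * I)),
    ?_, ?_⟩
  · intro h0
    have h1 : (θL : ℂ → ℂ) =ᵐ[mT] 0 := by
      rw [h0]; exact Lp.coeFn_zero _ _ _
    have h2 : ∀ᵐ ζ ∂mT, False := by
      filter_upwards [h1, θL_ae] with ζ h1 h2
      rw [h2] at h1
      exact Complex.exp_ne_zero _ h1
    rw [ae_iff] at h2
    simp at h2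
  · apply (S_re_integrable cC0 dD_pos cC_sum).neg.congr
    filter_upwards [θL_ae] with ζ h
    rw [h, log_norm_Th]
    rfl
  · rw [← neg_mul, ← Complex.ofReal_neg]
    exact Complex.norm_exp_ofReal_mul_I _
  · intro z hz
    have hz' : ‖z‖ < 1 := by simpa using hz
    have h1 : ∫ ζ, (ζ + z) / (ζ - z) * (Real.log ‖θL ζ‖ : ℂ) ∂mT
        = -(S cC dD z - (S cC dD 0).im * I) := by
      rw [← herglotz_S cC0 dD_pos cC_sum hz', ← integral_neg]
      apply integral_congr_ae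
      filter_upwards [θL_ae] with ζ h
      rw [h, log_norm_Th]
      push_cast
      ring
    rw [h1, ← Complex.exp_add, Th]
    congr 1
    ring

lemma SN_norm {z : ℂ} (hz : ‖z‖ ≤ 1) (N : ℕ) :
    ‖SN cC dD N z‖ ≤ ∑ j ∈ Finset.range N, cC j * (1 / dD j) := by
  rw [SN]
  apply (norm_sum_le _ _).trans
  apply Finset.sum_le_sum
  intro j _
  have h1 : 0 < (al dD j).re := by rw [al_re]; exact dD_pos j
  rw [norm_mul, Complex.norm_real, Real.norm_eq_abs, abs_of_pos (cC_pos j)]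
  apply mul_le_mul_of_nonneg_left _ (cC_pos j).le
  have := q_norm_le_re h1 hz
  rwa [al_re] at this

lemma SN_diff {z : ℂ} (hz : ‖z‖ ≤ 1) (N : ℕ) : DifferentiableAt ℂ (SN cC dD N) z := by
  unfold SN
  apply DifferentiableAt.fun_sum
  intro j _
  have h1 : 0 < (al dD j).re := by rw [al_re]; exact dD_pos j
  exact (differentiableAt_const _).mul (q_diff h1 hz)

lemma SN_re_le {ζ : ℂ} (h1 : ‖ζ‖ = 1) (h2 : ζ ≠ 1) (N : ℕ) :
    (SN cC dD N ζ).re ≤ (S cC dD ζ).re := by
  rw [SN_re, S_re cC0 dD_pos cC_sum h1.le h2]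
  exact (summable_re cC0 dD_pos cC_sum h1.le h2).sum_le_tsum _
    (fun j _ => term_re_nonneg cC0 dD_pos cC_sum h1.le j)

/-- Comparison with the outer function: a bounded analytic `K` with `|K*| ≤ M |θ*|` on the circle
satisfies `|K| ≤ M |exp (-SN)|` in the disc. -/
lemma compare {K : ℂ → ℂ} (hK : IsBddAnalytic K) {κ : ℂ → ℂ} {M : ℝ}
    (hM : ∀ᵐ ζ ∂mT, ‖κ ζ‖ ≤ M * ‖Th ζ‖)
    (hl : ∀ᵐ ζ ∂mT, Tendsto (fun r : ℝ => K (r * ζ)) (𝓝[<] 1) (𝓝 (κ ζ))) (N : ℕ) {z : ℂ}
    (hz : z ∈ ball (0:ℂ) 1) : ‖K z‖ ≤ M * Real.exp (-(SN cC dD N z).re) := by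
  obtain ⟨hd, C, hC⟩ := hK
  set B : ℝ := ∑ j ∈ Finset.range N, cC j * (1 / dD j) with hB
  have h := max_principle (u := fun z => K z * Complex.exp (SN cC dD N z))
    (g := fun ζ => κ ζ * Complex.exp (SN cC dD N ζ)) (M := M) (C := C * Real.exp B) ?_ ?_ ?_ ?_ z hz
  · rw [norm_mul, Complex.norm_exp] at h
    rw [Real.exp_neg, ← div_eq_mul_inv, le_div_iff₀ (Real.exp_pos _)]
    exact h
  · intro z hz
    have hz' : ‖z‖ ≤ 1 := (mem_ball_zero_iff.1 hz).le
    exact (hd z hz).mul (SN_diff hz' N).cexp.differentiableWithinAt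
  · intro z hz
    have hz' : ‖z‖ ≤ 1 := (mem_ball_zero_iff.1 hz).le
    rw [norm_mul, Complex.norm_exp]
    apply mul_le_mul (hC z hz) _ (Real.exp_pos _).le ((norm_nonneg _).trans (hC z hz))
    apply Real.exp_le_exp.2
    exact (re_le_norm _).trans (SN_norm hz' N)
  · filter_upwards [ae_norm, ae_ne_one, hM] with ζ h1 h2 h3
    rw [norm_mul, Complex.norm_exp]
    have h4 : ‖Th ζ‖ = Real.exp (-(S cC dD ζ).re) := by rw [Th, Complex.norm_exp, neg_re]
    have h5 : ‖Th ζ‖ * Real.exp (SN cC dD N ζ).re ≤ 1 := by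
      rw [h4, ← Real.exp_add, Real.exp_le_one_iff]
      linarith [SN_re_le h1 h2 N]
    have h6 : 0 ≤ M := by
      have h7 : 0 < ‖Th ζ‖ := by rw [h4]; exact Real.exp_pos _
      by_contra hneg
      have := mul_neg_of_neg_of_pos (not_le.1 hneg) h7
      linarith [norm_nonneg (κ ζ)]
    calc ‖κ ζ‖ * Real.exp (SN cC dD N ζ).re ≤ M * ‖Th ζ‖ * Real.exp (SN cC dD N ζ).re :=
          mul_le_mul_of_nonneg_right h3 (Real.exp_pos _).le
      _ = M * (‖Th ζ‖ * Real.exp (SN cC dD N ζ).re) := by ring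
      _ ≤ M * 1 := mul_le_mul_of_nonneg_left h5 h6
      _ = M := mul_one M
  · filter_upwards [ae_norm, hl] with ζ h1 h2
    apply h2.mul
    have hcr : Tendsto (fun r : ℝ => (r : ℂ) * ζ) (𝓝[<] 1) (𝓝 ζ) := by
      have : Tendsto (fun r : ℝ => (r : ℂ) * ζ) (𝓝 1) (𝓝 (((1:ℝ) : ℂ) * ζ)) :=
        (by fun_prop : Continuous (fun r : ℝ => (r : ℂ) * ζ)).tendsto 1
      simp only [ofReal_one, one_mul] at this
      exact this.mono_left nhdsWithin_le_nhds
    exact (Complex.continuous_exp.tendsto _).comp ((SN_diff h1.le N).continuousAt.tendsto.comp hcr)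

/-- There is a bounded outer function `θ` for which `H^∞ + θ L^∞` is not a generalized Douglas
algebra. -/
theorem result : ∃ θ : Lp ℂ ∞ mT, IsBddOuter θ ∧ ¬ GDProperty (HinfPlus θ) := by
  refine ⟨θL, θL_outer, ?_⟩
  intro hGD
  have hThm : AEStronglyMeasurable Th mT := (exp_memLp cC0 dD_pos cC_sum).1
  have hHm : AEStronglyMeasurable Hh mT := (exp_memLp eE0 eE_pos eE_sum).1
  let U : Set ℂ := {ζ | ‖Th ζ‖ < Real.exp (-BB)}
  have hU : NullMeasurableSet U mT :=
    nullMeasurableSet_lt hThm.norm.aemeasurable aemeasurable_const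
  have hHle : ∀ᵐ ζ ∂mT, ‖Hh ζ‖ ≤ 1 := by
    filter_upwards [ae_norm, ae_ne_one] with ζ h1 h2
    exact exp_neg_bdd eE0 eE_pos eE_sum h1.le h2
  have hfb : ∀ᵐ ζ ∂mT, ‖U.indicator Hh ζ‖ ≤ Real.exp (-(1 / 2)) := by
    filter_upwards [ae_norm, ae_ne_one] with ζ h1 h2
    by_cases hζ : ζ ∈ U
    · rw [Set.indicator_of_mem hζ]
      have h3 : ∃ j : ℕ, |(v ζ).im - j| ≤ eE j := by
        by_contra hcon
        push Not at hcon
        have h4 := Q_re_small h1 h2 hcon
        have h5 : ‖Th ζ‖ < Real.exp (-BB) := hζ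
        rw [Th, Complex.norm_exp, Real.exp_lt_exp, neg_re] at h5
        linarith
      obtain ⟨j, hj⟩ := h3
      rw [Hh, Complex.norm_exp, Real.exp_le_exp, neg_re]
      linarith [P_re_large h1 h2 hj]
    · rw [Set.indicator_of_notMem hζ, norm_zero]
      exact (Real.exp_pos _).le
  have hfm : MemLp (U.indicator Hh) ∞ mT := memLp_top_of_bound (hHm.indicator₀ hU) _ hfb
  have hgb : ∀ᵐ ζ ∂mT, ‖Uᶜ.indicator (fun ζ => -(Hh ζ / Th ζ)) ζ‖ ≤ Real.exp BB := by
    filter_upwards [hHle] with ζ h1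
    by_cases hζ : ζ ∈ Uᶜ
    · rw [Set.indicator_of_mem hζ, norm_neg, norm_div]
      have h2 : Real.exp (-BB) ≤ ‖Th ζ‖ := not_lt.1 hζ
      rw [div_le_iff₀ (lt_of_lt_of_le (Real.exp_pos _) h2)]
      calc ‖Hh ζ‖ ≤ 1 := h1
        _ = Real.exp BB * Real.exp (-BB) := by rw [← Real.exp_add]; simp
        _ ≤ Real.exp BB * ‖Th ζ‖ := mul_le_mul_of_nonneg_left h2 (Real.exp_pos _).le
    · rw [Set.indicator_of_notMem hζ, norm_zero]
      exact (Real.exp_pos _).le
  have hgm : MemLp (Uᶜ.indicator (fun ζ => -(Hh ζ / Th ζ))) ∞ mT := by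
    apply memLp_top_of_bound _ _ hgb
    apply AEStronglyMeasurable.indicator₀ _ hU.compl
    exact (hHm.aemeasurable.div hThm.aemeasurable).neg.aestronglyMeasurable
  let f : Lp ℂ ∞ mT := hfm.toLp _
  let g : Lp ℂ ∞ mT := hgm.toLp _
  have hf : f =ᵐ[mT] U.indicator Hh := MemLp.coeFn_toLp _
  have hg : g =ᵐ[mT] Uᶜ.indicator (fun ζ => -(Hh ζ / Th ζ)) := MemLp.coeFn_toLp _
  have hfg : f =ᵐ[mT] fun ζ => hL ζ + θL ζ * g ζ := by
    filter_upwards [hf, hg, θL_ae, hL_ae] with ζ h1 h2 h3 h4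
    rw [h1, h2, h3, h4]
    by_cases hζ : ζ ∈ U
    · rw [Set.indicator_of_mem hζ, Set.indicator_of_notMem (by simpa using hζ)]
      ring
    · rw [Set.indicator_of_notMem hζ, Set.indicator_of_mem (by simpa using hζ)]
      have : Th ζ ≠ 0 := Complex.exp_ne_zero _
      field_simp
      ring
  have hfX : f ∈ HinfPlus θL :=
    ⟨hL, ⟨Hh, exp_isBdd eE0 eE_pos eE_sum, hL_boundary⟩, g, hfg⟩
  have hfnorm : ‖f‖ < 1 := by
    have h1 : ∀ᵐ ζ ∂mT, ‖f ζ‖ ≤ Real.exp (-(1 / 2)) := by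
      filter_upwards [hf, hfb] with ζ h1 h2
      rwa [h1]
    calc ‖f‖ ≤ Real.exp (-(1 / 2)) := norm_lt_of_bound (Real.exp_pos _).le h1
      _ < 1 := by rw [Real.exp_lt_one_iff]; norm_num
  obtain ⟨u, ⟨Fs, ⟨F, ⟨hFd, CF, hCF⟩, hFb⟩, G, huFG⟩, hu⟩ := hGD f hfX hfnorm
  obtain ⟨MG, hMG0, hMG⟩ := Linf_bound G
  obtain ⟨Mg, hMg0, hMg⟩ := Linf_bound g
  obtain ⟨MF, hMF0, hMF⟩ := Linf_bound Fs
  have hfle : ∀ᵐ ζ ∂mT, ‖f ζ‖ ≤ Real.exp (-(1 / 2)) := by
    filter_upwards [hf, hfb] with ζ h1 h2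
    rwa [h1]
  have he1 : Real.exp (-(1 / 2) : ℝ) < 1 := by rw [Real.exp_lt_one_iff]; norm_num
  -- the bounded analytic function `K`
  have hHbdd : IsBddAnalytic Hh := exp_isBdd eE0 eE_pos eE_sum
  have hKb : IsBddAnalytic (fun z => 1 - F z * (1 - Hh z)) := by
    constructor
    · exact (differentiableOn_const _).sub (hFd.mul ((differentiableOn_const _).sub hHbdd.1))
    · obtain ⟨CH, hCH⟩ := hHbdd.2
      refine ⟨1 + CF * (1 + CH), fun z hz => ?_⟩
      have h1 : ‖F z * (1 - Hh z)‖ ≤ CF * (1 + CH) := by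
        rw [norm_mul]
        apply mul_le_mul (hCF z hz) _ (norm_nonneg _) ((norm_nonneg _).trans (hCF z hz))
        calc ‖1 - Hh z‖ ≤ ‖(1:ℂ)‖ + ‖Hh z‖ := norm_sub_le _ _
          _ ≤ 1 + CH := by rw [norm_one]; linarith [hCH z hz]
      calc ‖1 - F z * (1 - Hh z)‖ ≤ ‖(1:ℂ)‖ + ‖F z * (1 - Hh z)‖ := norm_sub_le _ _
        _ ≤ _ := by rw [norm_one]; linarith
  have hKl : ∀ᵐ ζ ∂mT, Tendsto (fun r : ℝ => 1 - F (r * ζ) * (1 - Hh (r * ζ))) (𝓝[<] 1)
      (𝓝 (1 - Fs ζ * (1 - hL ζ))) := by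
    filter_upwards [hFb, hL_boundary] with ζ h1 h2
    exact tendsto_const_nhds.sub (h1.mul (tendsto_const_nhds.sub h2))
  have hKM : ∀ᵐ ζ ∂mT, ‖1 - Fs ζ * (1 - hL ζ)‖ ≤ (MG * 2 + MF * Mg) * ‖Th ζ‖ := by
    filter_upwards [hMG, hMg, hMF, hfle, hfg, huFG, hu, θL_ae] with ζ h1 h2 h3 h4 h5 h6 h7 h8
    have h9 : 1 - f ζ ≠ 0 := by
      intro h0
      have : f ζ = 1 := (sub_eq_zero.1 h0).symm
      rw [this, norm_one] at h4
      linarith
    have h10 : (Fs ζ + θL ζ * G ζ) * (1 - f ζ) = 1 := by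
      rw [← h6, h7]
      field_simp
    have h11 : 1 - Fs ζ * (1 - hL ζ) = θL ζ * (G ζ * (1 - f ζ) - Fs ζ * g ζ) := by
      have h12 : hL ζ = f ζ - θL ζ * g ζ := by rw [h5]; ring
      rw [h12]
      linear_combination -h10
    rw [h11, norm_mul, h8, mul_comm]
    apply mul_le_mul_of_nonneg_right _ (norm_nonneg _)
    calc ‖G ζ * (1 - f ζ) - Fs ζ * g ζ‖ ≤ ‖G ζ * (1 - f ζ)‖ + ‖Fs ζ * g ζ‖ := norm_sub_le _ _
      _ = ‖G ζ‖ * ‖1 - f ζ‖ + ‖Fs ζ‖ * ‖g ζ‖ := by rw [norm_mul, norm_mul]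
      _ ≤ MG * 2 + MF * Mg := by
        have h13 : ‖1 - f ζ‖ ≤ 2 := by
          calc ‖1 - f ζ‖ ≤ ‖(1:ℂ)‖ + ‖f ζ‖ := norm_sub_le _ _
            _ ≤ 2 := by rw [norm_one]; linarith
        gcongr
  have hkey : ∀ k : ℕ, ‖1 - F (zk k) * (1 - Hh (zk k))‖ ≤
      (MG * 2 + MF * Mg) * Real.exp (-((3 / 2 : ℝ) ^ k / 2)) := by
    intro k
    refine (compare hKb hKM hKl (k + 1) (zk_mem k)).trans ?_
    apply mul_le_mul_of_nonneg_left _ (by positivity)
    apply Real.exp_le_exp.2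
    linarith [Q_large k]
  have hH1 : Tendsto (fun k => Hh (zk k)) atTop (𝓝 1) := by
    have h1 := (Complex.continuous_exp.tendsto _).comp P_tendsto.neg
    simpa [Hh, Function.comp_def] using h1
  have hlim1 : Tendsto (fun k => ‖F (zk k) * (1 - Hh (zk k))‖) atTop (𝓝 0) := by
    have h1 : Tendsto (fun k => CF * ‖1 - Hh (zk k)‖) atTop (𝓝 0) := by
      have h2 : Tendsto (fun k => ‖1 - Hh (zk k)‖) atTop (𝓝 0) := by
        have := (tendsto_const_nhds (x := (1:ℂ))).sub hH1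
        simpa using this.norm
      simpa using h2.const_mul CF
    apply squeeze_zero (fun k => norm_nonneg _) _ h1
    intro k
    rw [norm_mul]
    exact mul_le_mul_of_nonneg_right (hCF _ (zk_mem k)) (norm_nonneg _)
  have hlim2 : Tendsto (fun k : ℕ => (MG * 2 + MF * Mg) * Real.exp (-((3 / 2 : ℝ) ^ k / 2))) atTop
      (𝓝 0) := by
    have h1 : Tendsto (fun k : ℕ => (3 / 2 : ℝ) ^ k / 2) atTop atTop :=
      (tendsto_pow_atTop_atTop_of_one_lt (by norm_num)).atTop_div_const (by norm_num)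
    have h2 := (Real.tendsto_exp_neg_atTop_nhds_zero.comp h1).const_mul (MG * 2 + MF * Mg)
    simpa [Function.comp_def] using h2
  have hfin : ∀ k : ℕ, (1:ℝ) ≤ ‖F (zk k) * (1 - Hh (zk k))‖ +
      (MG * 2 + MF * Mg) * Real.exp (-((3 / 2 : ℝ) ^ k / 2)) := by
    intro k
    have h1 : (1:ℂ) = F (zk k) * (1 - Hh (zk k)) + (1 - F (zk k) * (1 - Hh (zk k))) := by ring
    calc (1:ℝ) = ‖(1:ℂ)‖ := norm_one.symm
      _ = ‖F (zk k) * (1 - Hh (zk k)) + (1 - F (zk k) * (1 - Hh (zk k)))‖ := by rw [← h1]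
      _ ≤ _ := (norm_add_le _ _).trans (by linarith [hkey k])
  have := ge_of_tendsto' (hlim1.add hlim2) hfin
  norm_num at this

end Pool.Agent.Results.MP_c4e2dd_an.GDFails
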